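import Pool.Agent.T2H19.R13

/-! Random operators `t (x - y) + X_{xy}` on `ℤ^d` with independent entries whose off-diagonal part
has a finite second and an infinite first absolute moment per row: purely continuous spectrum at
every disorder, in particular for hopping of size `ε |x - y| ^ (-β)`, `d / 2 < β ≤ d`. -/

set_option autoImplicit false

namespace Pool.Agent.Results.MP_1906c1_mp.CriticalHopping

open MeasureTheory ProbabilityTheory
open scoped ComplexConjugate ENNReal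

/-- Square summable solutions of `(H - z) u = δ_x`. -/
def IsGreen {d : ℕ} (H : (Fin d → ℤ) → (Fin d → ℤ) → ℂ) (z : ℂ) (x : Fin d → ℤ)
    (u : (Fin d → ℤ) → ℂ) : Prop :=
  (Summable fun y => ‖u y‖ ^ 2) ∧ ∀ y, ∑' w, H y w * u w - z * u y = if y = x then 1 else 0

/-- The matrix `H` is Hermitian with square summable rows, it is essentially self-adjoint, the
spectral measures of all sites have no atoms, and there are no square summable eigenfunctions. -/
def Spectral {d : ℕ} (H : (Fin d → ℤ) → (Fin d → ℤ) → ℂ) : Prop :=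
  (∀ x y, H x y = conj (H y x)) ∧
  (∀ x, Summable fun y => ‖H x y‖ ^ 2) ∧
  (∀ z : ℂ, z.im ≠ 0 → ∀ x, ∃! u : (Fin d → ℤ) → ℂ, IsGreen H z x u) ∧
  (∀ x, ∃ μ : Measure ℝ, IsProbabilityMeasure μ ∧ (∀ E : ℝ, μ {E} = 0) ∧
    ∀ z : ℂ, z.im ≠ 0 → ∀ u : (Fin d → ℤ) → ℂ, IsGreen H z x u →
      u x = ∫ E : ℝ, 1 / ((E : ℂ) - z) ∂μ) ∧
  (∀ (E : ℝ) (ψ : (Fin d → ℤ) → ℂ), (Summable fun x => ‖ψ x‖ ^ 2) →
    (∀ x, ∑' y, H x y * ψ y = E * ψ x) → ψ = 0)

theorem isU_of {d : ℕ} {H : (Fin d → ℤ) → (Fin d → ℤ) → ℂ} (hH : T2H19.Adm H) {z : ℂ}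
    {x : Fin d → ℤ} {u : (Fin d → ℤ) → ℂ} (hu : IsGreen H z x u) :
    T2H19.IsU H hH z x ⟨u, T2H19.mem2 hu.1⟩ := by
  intro y
  have h1 := hu.2 y
  rw [← h1]
  congr 1
  rw [lp.inner_eq_tsum]
  refine tsum_congr fun w => ?_
  show inner ℂ (H w y) (u w) = H y w * u w
  rw [hH.herm y w, RCLike.inner_apply]
  exact mul_comm _ _

theorem of_isU {d : ℕ} {H : (Fin d → ℤ) → (Fin d → ℤ) → ℂ} (hH : T2H19.Adm H) {z : ℂ}
    {x : Fin d → ℤ} {U : T2H19.E2 (Fin d → ℤ)} (hU : T2H19.IsU H hH z x U) :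
    IsGreen H z x (fun y => U y) := by
  refine ⟨T2H19.sm2 U, fun y => ?_⟩
  have h1 := hU y
  rw [← h1]
  congr 1
  rw [lp.inner_eq_tsum]
  refine tsum_congr fun w => ?_
  show H y w * U w = inner ℂ (H w y) (U w)
  rw [hH.herm y w, RCLike.inner_apply]
  exact mul_comm _ _

theorem spectral_of {d : ℕ} {H : (Fin d → ℤ) → (Fin d → ℤ) → ℂ}
    (h : ∃ hH : T2H19.Adm H, (∀ z : ℂ, z.im ≠ 0 → ∀ x, T2H19.Ap H hH z x) ∧
      ∀ x, ∃ μ : Measure ℝ, IsProbabilityMeasure μ ∧ (∀ E : ℝ, μ {E} = 0) ∧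
        ∀ z : ℂ, z.im ≠ 0 → ∀ U : T2H19.E2 (T2H19.Zd d), T2H19.IsU _ hH z x U →
          U x = ∫ E : ℝ, 1 / ((E : ℂ) - z) ∂μ) : Spectral H := by
  obtain ⟨hH, hA, hac⟩ := h
  have hrow : ∀ x, Summable fun y => ‖H x y‖ ^ 2 := by
    intro x
    refine (hH.sm x).congr fun y => ?_
    rw [hH.herm x y, RCLike.norm_conj]
  refine ⟨hH.herm, hrow, fun z hz x => ?_, fun x => ?_, fun E ψ hψ hE => ?_⟩
  · obtain ⟨U, hU, -⟩ := T2H19.exists_U _ hH hz x (hA z hz x)
    refine ⟨fun y => U y, of_isU hH hU, fun v hv => ?_⟩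
    have hz' : (conj z).im ≠ 0 := by simpa using hz
    have h1 := T2H19.unique_U _ hH z x (hA (conj z) hz') _ _ (isU_of hH hv) hU
    funext y
    rw [← h1]
  · obtain ⟨μ, hμ, h1, h2⟩ := hac x
    exact ⟨μ, hμ, h1, fun z hz u hu => h2 z hz _ (isU_of hH hu)⟩
  · funext x
    obtain ⟨μ, hμ, h1, h2⟩ := hac x
    have h3 := T2H19.no_eig' hH hA x μ E (h1 E) h2 ⟨ψ, T2H19.mem2 hψ⟩ (by
      intro y
      have h4 := hE y
      show _ = (E : ℂ) * ψ y
      rw [← h4, lp.inner_eq_tsum]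
      refine tsum_congr fun w => ?_
      show inner ℂ (H w y) (ψ w) = H y w * ψ w
      rw [hH.herm y w, RCLike.inner_apply]
      exact mul_comm _ _)
    exact h3

/-- The general criterion. -/
theorem crit {d : ℕ} {Ω : Type*} [MeasurableSpace Ω] (P : Measure Ω) [IsProbabilityMeasure P]
    (X : Sym2 (Fin d → ℤ) → Ω → ℝ) (hX : ∀ e, Measurable (X e)) (hI : iIndepFun X P)
    (t : (Fin d → ℤ) → ℝ) (ht : ∀ h, t (-h) = t h) (ht2 : Summable fun h => t h ^ 2)
    (hsh : ∀ c x y, P.map (X s(x + c, y + c)) = P.map (X s(x, y)))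
    (hsym : ∀ h, h ≠ 0 → P.map (fun ω => -X s(0, h) ω) = P.map (X s(0, h)))
    (hρ : ∃ (ρ : ℝ → ℝ) (C : ℝ), Continuous ρ ∧ (∀ r, 0 ≤ ρ r ∧ ρ r ≤ C) ∧
      P.map (X s(0, 0)) = volume.withDensity fun r => ENNReal.ofReal (ρ r))
    (h2 : (∑' h : Fin d → ℤ, if h = 0 then 0 else
      ∫⁻ ω, ENNReal.ofReal (X s(0, h) ω ^ 2) ∂P) ≠ ∞)
    (h1 : (∑' h : Fin d → ℤ, if h = 0 then 0 else
      ∫⁻ ω, ENNReal.ofReal |X s(0, h) ω| ∂P) = ∞) :
    ∀ᵐ ω ∂P, Spectral fun x y => ((t (x - y) + X s(x, y) ω : ℝ) : ℂ) := by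
  have : ∀ e, IsProbabilityMeasure (P.map (X e)) := fun e =>
    Measure.isProbabilityMeasure_map (hX e).aemeasurable
  obtain ⟨ρ, C, hc, hb, hd⟩ := hρ
  have m : T2H19.Mo (fun e => P.map (X e)) t := by
    refine ⟨hsh, ht, ht2, ?_⟩
    refine ne_of_eq_of_ne (tsum_congr fun h => ?_) h2
    unfold T2H19.S2
    split_ifs with h0
    · rfl
    · exact lintegral_map (by fun_prop) (hX _)
  have hS1 : ∑' h, T2H19.S1 (fun e => P.map (X e)) h = ∞ := by
    refine (tsum_congr fun h => ?_).trans h1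
    unfold T2H19.S1
    split_ifs with h0
    · rfl
    · exact lintegral_map (by fun_prop) (hX _)
  have hsym' : ∀ h : T2H19.Zd d, h ≠ 0 →
      (P.map (X s(0, h))).map (fun g => -g) = P.map (X s(0, h)) := by
    intro h h0
    rw [Measure.map_map measurable_neg (hX _)]
    exact hsym h h0
  have hD : T2H19.Dens (P.map (X s(0, 0))) ρ C := ⟨hc, fun r => (hb r).1, fun r => (hb r).2, hd⟩
  have h3 := T2H19.main_R m hD hsym' hS1
  refine (T2H19.trans_ae P X hX hI h3).mono fun ω hω => ?_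
  exact spectral_of hω

/-- The coefficients of the power law model. -/
noncomputable def coef (d : ℕ) (σ ε β : ℝ) : Sym2 (Fin d → ℤ) → ℝ :=
  Sym2.lift ⟨fun x y => if x = y then σ else ε * ‖x - y‖ ^ (-β), fun x y => by
    simp only [norm_sub_rev x y, eq_comm (a := x) (b := y)]⟩

theorem coef_mk (d : ℕ) (σ ε β : ℝ) (x y : Fin d → ℤ) :
    coef d σ ε β s(x, y) = if x = y then σ else ε * ‖x - y‖ ^ (-β) := rfl

theorem power {d : ℕ} {Ω : Type*} [MeasurableSpace Ω] (P : Measure Ω) [IsProbabilityMeasure P]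
    (X : Sym2 (Fin d → ℤ) → Ω → ℝ) (hX : ∀ e, Measurable (X e)) (hI : iIndepFun X P)
    (lam : Measure ℝ) (hdg : ∀ x, P.map (X s(x, x)) = gaussianReal 0 1)
    (hoff : ∀ x y, x ≠ y → P.map (X s(x, y)) = lam) (hsym : lam.map (fun r => -r) = lam)
    (h2 : ∫⁻ r, ENNReal.ofReal (r ^ 2) ∂lam ≠ ∞) (h1 : lam {0}ᶜ ≠ 0)
    (σ ε β : ℝ) (hσ : σ ≠ 0) (hε : ε ≠ 0) (hβ : (d : ℝ) / 2 < β) (hβd : β ≤ d) :
    ∀ᵐ ω ∂P, Spectral fun x y : Fin d → ℤ =>
      (((if ∑ i, |x i - y i| = 1 then 1 else 0)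
        + (if x = y then σ else ε * ‖x - y‖ ^ (-β)) * X s(x, y) ω : ℝ) : ℂ) := by
  have hβ0 : 0 < β := lt_of_le_of_lt (by positivity) hβ
  have hd : 0 < d := by
    rcases Nat.eq_zero_or_pos d with h | h
    · rw [h] at hβd
      simp at hβd
      linarith
    · exact h
  obtain ⟨Y, hY⟩ : ∃ Y : Sym2 (Fin d → ℤ) → Ω → ℝ, Y = fun e ω => coef d σ ε β e * X e ω :=
    ⟨_, rfl⟩
  have hYm : ∀ e, Measurable (Y e) := fun e => by
    rw [hY]
    exact (hX e).const_mul _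
  have hYI : iIndepFun Y P := by
    rw [hY]
    exact hI.comp (fun e r => coef d σ ε β e * r) (fun e => measurable_const_mul _)
  have hYmap : ∀ e, P.map (Y e) = (P.map (X e)).map (fun r => coef d σ ε β e * r) := by
    intro e
    rw [Measure.map_map (measurable_const_mul _) (hX e), hY]
    rfl
  have hmass : ∀ h : Fin d → ℤ, h ≠ 0 → ∀ f : ℝ → ℝ≥0∞, Measurable f →
      ∫⁻ ω, f (Y s(0, h) ω) ∂P = ∫⁻ r, f (ε * ‖h‖ ^ (-β) * r) ∂lam := by
    intro h h0 f hf
    have h3 : ∫⁻ ω, f (Y s(0, h) ω) ∂P = ∫⁻ r, f r ∂(P.map (Y s(0, h))) :=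
      (lintegral_map hf (hYm _)).symm
    rw [h3, hYmap, hoff 0 h (Ne.symm h0), lintegral_map hf (measurable_const_mul _), coef_mk,
      if_neg (Ne.symm h0), zero_sub, norm_neg]
  have hkey := crit P Y hYm hYI (fun h => if ∑ i, |h i| = 1 then 1 else 0) (fun h => by simp)
    ?_ ?_ ?_ ?_ ?_ ?_
  · filter_upwards [hkey] with ω hω
    refine cast ?_ hω
    congr 1
    funext x y
    rw [hY]
    simp only [coef_mk, Pi.sub_apply]
  · -- summability of the hopping
    refine (T2H19.summable_int d (d + 1) (by linarith)).of_nonneg_of_le (fun h => sq_nonneg _)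
      (fun h => ?_)
    by_cases hh : ∑ i, |h i| = 1
    · rw [if_pos hh, one_pow]
      have h3 : ‖h‖ ≤ 1 := by
        rw [pi_norm_le_iff_of_nonneg zero_le_one]
        intro i
        rw [Int.norm_eq_abs]
        have h4 := Finset.single_le_sum (f := fun i => |h i|) (fun i _ => abs_nonneg _)
          (Finset.mem_univ i)
        rw [hh] at h4
        exact_mod_cast h4
      have h5 : 0 < ‖h‖ := by
        rw [norm_pos_iff]
        intro h6
        rw [h6] at hh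
        simp at hh
      exact Real.one_le_rpow_of_pos_of_le_one_of_nonpos h5 h3 (by linarith)
    · rw [if_neg hh, zero_pow (by norm_num)]
      exact Real.rpow_nonneg (norm_nonneg _) _
  · intro c x y
    rw [hYmap, hYmap, coef_mk, coef_mk]
    by_cases h : x = y
    · rw [h, hdg, hdg, if_pos rfl, if_pos rfl]
    · have h' : x + c ≠ y + c := fun h3 => h (add_right_cancel h3)
      rw [if_neg h, if_neg h', hoff _ _ h, hoff _ _ h', add_sub_add_right_eq_sub]
  · intro h h0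
    have h3 : P.map (fun ω => -Y s(0, h) ω) = (P.map (Y s(0, h))).map (fun r => -r) := by
      rw [Measure.map_map measurable_neg (hYm _)]
      rfl
    rw [h3, hYmap, hoff 0 h (Ne.symm h0), Measure.map_map measurable_neg (measurable_const_mul _)]
    conv_rhs => rw [← hsym]
    rw [Measure.map_map (measurable_const_mul _) measurable_neg]
    congr 1
    funext r
    simp
  · rw [hYmap, hdg, coef_mk, if_pos rfl]
    exact T2H19.gauss_dens hσ
  · have h3 : ∀ h : Fin d → ℤ, (if h = 0 then 0 else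
        ∫⁻ ω, ENNReal.ofReal (Y s(0, h) ω ^ 2) ∂P)
          = ENNReal.ofReal (ε ^ 2 * ‖h‖ ^ (-(2 * β))) * ∫⁻ r, ENNReal.ofReal (r ^ 2) ∂lam := by
      intro h
      split_ifs with h0
      · rw [h0, norm_zero, Real.zero_rpow (by linarith), mul_zero, ENNReal.ofReal_zero, zero_mul]
      · rw [hmass h h0 (fun r => ENNReal.ofReal (r ^ 2)) (by fun_prop),
          ← lintegral_const_mul _ (by fun_prop)]
        refine lintegral_congr fun r => ?_
        rw [← ENNReal.ofReal_mul (by positivity)]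
        congr 1
        rw [mul_pow, mul_pow, ← Real.rpow_natCast (_ ^ (-β)) 2, ← Real.rpow_mul (norm_nonneg _)]
        congr 3
        push_cast
        ring
    rw [tsum_congr h3, ENNReal.tsum_mul_right]
    refine ENNReal.mul_ne_top (T2H19.tsum_ne_of (fun h => by positivity) ?_) h2
    exact (T2H19.summable_int d (2 * β) (by linarith)).mul_left _
  · have h3 : ∀ h : Fin d → ℤ, (if h = 0 then 0 else
        ∫⁻ ω, ENNReal.ofReal |Y s(0, h) ω| ∂P)
          = ENNReal.ofReal (|ε| * ‖h‖ ^ (-β)) * ∫⁻ r, ENNReal.ofReal |r| ∂lam := by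
      intro h
      split_ifs with h0
      · rw [h0, norm_zero, Real.zero_rpow (by linarith), mul_zero, ENNReal.ofReal_zero, zero_mul]
      · rw [hmass h h0 (fun r => ENNReal.ofReal |r|) (by fun_prop),
          ← lintegral_const_mul _ (by fun_prop)]
        refine lintegral_congr fun r => ?_
        rw [← ENNReal.ofReal_mul (by positivity)]
        congr 1
        rw [abs_mul, abs_mul, abs_of_nonneg (Real.rpow_nonneg (norm_nonneg h) (-β))]
    rw [tsum_congr h3, ENNReal.tsum_mul_right]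
    have h4 : ∑' h : Fin d → ℤ, ENNReal.ofReal (|ε| * ‖h‖ ^ (-β)) = ∞ := by
      refine T2H19.tsum_top_of (fun h => by positivity) fun h5 => ?_
      exact T2H19.not_summable_pow hd hβ0 hβd
        ((summable_mul_left_iff (abs_ne_zero.2 hε)).1 h5)
    rw [h4]
    refine ENNReal.top_mul ?_
    intro h5
    rw [lintegral_eq_zero_iff (by fun_prop)] at h5
    refine h1 ?_
    have h6 := ae_iff.1 h5
    convert h6 using 2
    ext r
    simp

/-- Let `X_e`, for `e` an unordered pair of sites of `ℤ^d`, be independent real random variables.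

(i) Let the law of `X_{xy}` be translation invariant, let the law of `X_{00}` have a bounded
continuous density, and let the laws of `X_{0h}`, `h ≠ 0`, be symmetric, with
`∑ E |X_{0h}| ^ 2 < ∞` and `∑ E |X_{0h}| = ∞`. Let `t` be even and square summable. Then almost
surely `H x y = t (x - y) + X_{xy}` has purely continuous spectrum.

(ii) If the `X_{xx}` are standard Gaussian and the `X_{xy}`, `x ≠ y`, have a common symmetric law
with a finite nonzero variance, then for all `σ ≠ 0`, `ε ≠ 0` and `d / 2 < β ≤ d`, almost surely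
the operator `Δ + σ X_{xx} + ε |x - y| ^ (-β) X_{xy}` has purely continuous spectrum. -/
theorem result (d : ℕ) {Ω : Type*} [MeasurableSpace Ω] (P : Measure Ω) [IsProbabilityMeasure P]
    (X : Sym2 (Fin d → ℤ) → Ω → ℝ) (hX : ∀ e, Measurable (X e)) (hI : iIndepFun X P) :
    (∀ t : (Fin d → ℤ) → ℝ, (∀ h, t (-h) = t h) → (Summable fun h => t h ^ 2) →
      (∀ c x y, P.map (X s(x + c, y + c)) = P.map (X s(x, y))) →
      (∀ h, h ≠ 0 → P.map (fun ω => -X s(0, h) ω) = P.map (X s(0, h))) →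
      (∃ (ρ : ℝ → ℝ) (C : ℝ), Continuous ρ ∧ (∀ r, 0 ≤ ρ r ∧ ρ r ≤ C) ∧
        P.map (X s(0, 0)) = volume.withDensity fun r => ENNReal.ofReal (ρ r)) →
      (∑' h : Fin d → ℤ, if h = 0 then 0 else
        ∫⁻ ω, ENNReal.ofReal (X s(0, h) ω ^ 2) ∂P) ≠ ∞ →
      (∑' h : Fin d → ℤ, if h = 0 then 0 else
        ∫⁻ ω, ENNReal.ofReal |X s(0, h) ω| ∂P) = ∞ →
      ∀ᵐ ω ∂P, Spectral fun x y => ((t (x - y) + X s(x, y) ω : ℝ) : ℂ)) ∧
    (∀ lam : Measure ℝ, (∀ x, P.map (X s(x, x)) = gaussianReal 0 1) →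
      (∀ x y, x ≠ y → P.map (X s(x, y)) = lam) → lam.map (fun r => -r) = lam →
      ∫⁻ r, ENNReal.ofReal (r ^ 2) ∂lam ≠ ∞ → lam {0}ᶜ ≠ 0 →
      ∀ σ ε β : ℝ, σ ≠ 0 → ε ≠ 0 → (d : ℝ) / 2 < β → β ≤ d →
        ∀ᵐ ω ∂P, Spectral fun x y : Fin d → ℤ =>
          (((if ∑ i, |x i - y i| = 1 then 1 else 0)
            + (if x = y then σ else ε * ‖x - y‖ ^ (-β)) * X s(x, y) ω : ℝ) : ℂ)) :=
  ⟨fun t ht ht2 hsh hsym hρ h2 h1 => crit P X hX hI t ht ht2 hsh hsym hρ h2 h1,
    fun lam hdg hoff hsym h2 h1 σ ε β hσ hε hβ hβd =>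
      power P X hX hI lam hdg hoff hsym h2 h1 σ ε β hσ hε hβ hβd⟩

end Pool.Agent.Results.MP_1906c1_mp.CriticalHopping
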