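import Pool.Agent.T2H19.Fin2

/-! The Anderson operator with a small random Hermitian hopping of variance `ε ^ 2 |x - y| ^ (-2 β)`,
`d / 2 < β < 2 d / 3`, has purely absolutely continuous spectrum at every disorder strength. -/

set_option autoImplicit false

namespace Pool.Agent.Results.MP_1906c1_mp.LongRangeACSpectrum

open MeasureTheory ProbabilityTheory
open scoped ComplexConjugate

/-- The index set of the independent standard Gaussian variables: one for every site and two for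
every ordered pair of sites. -/
abbrev Idx (d : ℕ) : Type := (Fin d → ℤ) ⊕ ((Fin d → ℤ) × (Fin d → ℤ) × Bool)

/-- Matrix entries of the lattice Laplacian. -/
noncomputable def lap {d : ℕ} (x y : Fin d → ℤ) : ℂ := if ∑ i, |x i - y i| = 1 then 1 else 0

/-- The standard complex Gaussian variable of the pair `x, y`; swapping `x` and `y` conjugates it. -/
noncomputable def gau {d : ℕ} (g : Idx d → ℝ) (x y : Fin d → ℤ) : ℂ :=
  ((g (Sum.inr (x, y, false)) + g (Sum.inr (y, x, false))) / 2 : ℝ)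
    + ((g (Sum.inr (x, y, true)) - g (Sum.inr (y, x, true))) / 2 : ℝ) * Complex.I

/-- Matrix entries of `Δ + σ ξ + ε W`, where `W` has entries `|x - y| ^ (-β)` times the Gaussian
variable of the pair, with the maximum norm, off the diagonal, and zero on the diagonal. -/
noncomputable def ham {d : ℕ} (σ ε β : ℝ) (g : Idx d → ℝ) (x y : Fin d → ℤ) : ℂ :=
  lap x y + (if x = y then ((σ * g (Sum.inl x) : ℝ) : ℂ)
    else ((ε * ‖x - y‖ ^ (-β) : ℝ) : ℂ) * gau g x y)

/-- Square summable solutions of `(H - z) u = δ_x`. -/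
def IsGreen {d : ℕ} (H : (Fin d → ℤ) → (Fin d → ℤ) → ℂ) (z : ℂ) (x : Fin d → ℤ)
    (u : (Fin d → ℤ) → ℂ) : Prop :=
  (Summable fun y => ‖u y‖ ^ 2) ∧ ∀ y, ∑' w, H y w * u w - z * u y = if y = x then 1 else 0

theorem ham_eq {d : ℕ} (σ ε β : ℝ) (hε : 0 < ε) (hβ : 0 < β) (g : Idx d → ℝ) :
    ham σ ε β g = T2H19.Hi ε β σ d g := by
  funext x y
  unfold ham T2H19.Hi T2H19.He
  have h1 : lap x y = T2H19.Kf d x y := by
    unfold lap T2H19.Kf T2H19.kk
    have h2 : ((∑ i, ((x - y) i).natAbs : ℕ) : ℤ) = ∑ i, |x i - y i| := by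
      push_cast
      exact Finset.sum_congr rfl fun i _ => by simp
    by_cases h : ∑ i, |x i - y i| = 1
    · rw [if_pos h, if_pos (by rw [← h2] at h; exact_mod_cast h)]
      simp
    · rw [if_neg h, if_neg (by
        intro h3
        apply h
        rw [← h2, h3]
        rfl)]
      simp
  rw [h1, add_assoc]
  congr 1
  by_cases h : x = y
  · rw [if_pos h, if_pos h]
    have h2 : T2H19.Sf ε β d x y = 0 := by
      unfold T2H19.Sf
      rw [h, sub_self, norm_zero, Real.zero_rpow (by linarith), mul_zero]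
    rw [h2, Real.sqrt_zero]
    simp
  · rw [if_neg h, if_neg h, zero_add]
    have h2 : √(T2H19.Sf ε β d x y) = ε * ‖x - y‖ ^ (-β) := by
      have h3 : T2H19.Sf ε β d x y = (ε * ‖x - y‖ ^ (-β)) ^ 2 := by
        unfold T2H19.Sf
        rw [mul_pow, ← Real.rpow_natCast (_ ^ (-β)) 2, ← Real.rpow_mul (norm_nonneg _)]
        congr 2
        push_cast
        ring
      rw [h3, Real.sqrt_sq (by positivity)]
    rw [h2]
    rfl

theorem isU_of {d : ℕ} {H : (Fin d → ℤ) → (Fin d → ℤ) → ℂ} (hH : T2H19.Adm H) {z : ℂ}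
    {x : Fin d → ℤ} {u : (Fin d → ℤ) → ℂ} (hu : IsGreen H z x u) :
    T2H19.IsU H hH z x ⟨u, T2H19.mem2 hu.1⟩ := by
  intro y
  have h1 := hu.2 y
  rw [← h1]
  congr 1
  rw [lp.inner_eq_tsum]
  refine tsum_congr fun w => ?_
  show inner ℂ (H w y) (u w) = H y w * u w
  rw [hH.herm y w, RCLike.inner_apply]
  exact mul_comm _ _

theorem of_isU {d : ℕ} {H : (Fin d → ℤ) → (Fin d → ℤ) → ℂ} (hH : T2H19.Adm H) {z : ℂ}
    {x : Fin d → ℤ} {U : T2H19.E2 (Fin d → ℤ)} (hU : T2H19.IsU H hH z x U) :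
    IsGreen H z x (fun y => U y) := by
  refine ⟨T2H19.sm2 U, fun y => ?_⟩
  have h1 := hU y
  rw [← h1]
  congr 1
  rw [lp.inner_eq_tsum]
  refine tsum_congr fun w => ?_
  show H y w * U w = inner ℂ (H w y) (U w)
  rw [hH.herm y w, RCLike.inner_apply]
  exact mul_comm _ _

/-- Let `d ≥ 1`, `d / 2 < β < 2 d / 3`, `ε > 0` and `σ ≠ 0`. Almost surely the matrix
`Δ + σ ξ + ε W` is Hermitian with square summable rows, it is essentially self-adjoint (the
equation `(H - z) u = δ_x` has exactly one square summable solution for every nonreal `z`), for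
every site `x` the spectral measure of `δ_x` is absolutely continuous, and there are no square
summable eigenfunctions. -/
theorem result (d : ℕ) (hd : 0 < d) (β : ℝ) (hβ1 : (d : ℝ) / 2 < β) (hβ2 : β < 2 * d / 3)
    (ε : ℝ) (hε : 0 < ε) (σ : ℝ) (hσ : σ ≠ 0) :
    ∀ᵐ g ∂(Measure.infinitePi fun _ : Idx d => gaussianReal 0 1),
      (∀ x y, ham σ ε β g x y = conj (ham σ ε β g y x)) ∧
      (∀ x, Summable fun y => ‖ham σ ε β g x y‖ ^ 2) ∧
      (∀ z : ℂ, z.im ≠ 0 → ∀ x, ∃! u : (Fin d → ℤ) → ℂ, IsGreen (ham σ ε β g) z x u) ∧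
      (∀ x, ∃ μ : Measure ℝ, IsProbabilityMeasure μ ∧ μ ≪ volume ∧
        ∀ z : ℂ, z.im ≠ 0 → ∀ u : (Fin d → ℤ) → ℂ, IsGreen (ham σ ε β g) z x u →
          u x = ∫ E : ℝ, 1 / ((E : ℂ) - z) ∂μ) ∧
      (∀ (E : ℝ) (ψ : (Fin d → ℤ) → ℂ), (Summable fun x => ‖ψ x‖ ^ 2) →
        (∀ x, ∑' y, ham σ ε β g x y * ψ y = E * ψ x) → ψ = 0) := by
  have hd' : (0 : ℝ) < d := by exact_mod_cast hd
  have hβ0 : 0 < β := by linarith
  have h0 := T2H19.ac_all (ε := ε) (β := β) (σ := σ) hd (by linarith) (by linarith) hε hσ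
  filter_upwards [h0] with g hg
  obtain ⟨hH, hA, hac⟩ := hg
  rw [ham_eq σ ε β hε hβ0 g]
  have hrow : ∀ x, Summable fun y => ‖T2H19.Hi ε β σ d g x y‖ ^ 2 := by
    intro x
    refine (hH.sm x).congr fun y => ?_
    rw [hH.herm x y, RCLike.norm_conj]
  refine ⟨hH.herm, hrow, fun z hz x => ?_, fun x => ?_, fun E ψ hψ hE => ?_⟩
  · obtain ⟨U, hU, -⟩ := T2H19.exists_U _ hH hz x (hA z hz x)
    refine ⟨fun y => U y, of_isU hH hU, fun v hv => ?_⟩
    have hz' : (conj z).im ≠ 0 := by simpa using hz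
    have h1 := T2H19.unique_U _ hH z x (hA (conj z) hz') _ _ (isU_of hH hv) hU
    funext y
    rw [← h1]
  · obtain ⟨μ, hμ, h1, h2⟩ := hac x
    exact ⟨μ, hμ, h1, fun z hz u hu => h2 z hz _ (isU_of hH hu)⟩
  · funext x
    obtain ⟨μ, hμ, h1, h2⟩ := hac x
    have h3 := T2H19.no_eig hH hA x μ h1 h2 E ⟨ψ, T2H19.mem2 hψ⟩ (by
      intro y
      have h4 := hE y
      show _ = (E : ℂ) * ψ y
      rw [← h4, lp.inner_eq_tsum]
      refine tsum_congr fun w => ?_
      show inner ℂ (T2H19.Hi ε β σ d g w y) (ψ w) = T2H19.Hi ε β σ d g y w * ψ w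
      rw [hH.herm y w, RCLike.inner_apply]
      exact mul_comm _ _)
    exact h3

end Pool.Agent.Results.MP_1906c1_mp.LongRangeACSpectrum
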