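import Pool.Agent.T2H19.G6

/-! Random hopping of long range on `ℤ^d` and an arbitrary i.i.d. potential: purely continuous
spectrum in the whole range of decay exponents below `d`, with a bound for the dimension of the
spectral measures. -/

set_option autoImplicit false

namespace Pool.Agent.Results.MP_1906c1_mp.LongRangeContinuousSpectrum

open MeasureTheory ProbabilityTheory
open scoped ComplexConjugate

/-- The index set of the independent standard Gaussian variables: two for every ordered pair. -/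
abbrev Pairs (d : ℕ) : Type := (Fin d → ℤ) × (Fin d → ℤ) × Bool

/-- Matrix entries of the lattice Laplacian. -/
noncomputable def lap {d : ℕ} (x y : Fin d → ℤ) : ℂ := if ∑ i, |x i - y i| = 1 then 1 else 0

/-- The standard Gaussian variable of the pair `x, y`, complex for `x ≠ y` and real for `x = y`;
swapping `x` and `y` conjugates it. -/
noncomputable def gau {d : ℕ} (g : Pairs d → ℝ) (x y : Fin d → ℤ) : ℂ :=
  ((g (x, y, false) + g (y, x, false)) / 2 : ℝ)
    + ((g (x, y, true) - g (y, x, true)) / 2 : ℝ) * Complex.I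

/-- Matrix entries of `Δ + v + W`, where the entries of `W` are independent up to Hermitian
symmetry, Gaussian, centred, and have variance `S (x - y)`. -/
noncomputable def ham {d : ℕ} (S : (Fin d → ℤ) → ℝ) (v : (Fin d → ℤ) → ℝ) (g : Pairs d → ℝ)
    (x y : Fin d → ℤ) : ℂ :=
  lap x y + (if x = y then (v x : ℂ) else 0) + ((√(S (x - y)) : ℝ) : ℂ) * gau g x y

/-- Square summable solutions of `(H - z) u = δ_x`. -/
def IsGreen {d : ℕ} (H : (Fin d → ℤ) → (Fin d → ℤ) → ℂ) (z : ℂ) (x : Fin d → ℤ)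
    (u : (Fin d → ℤ) → ℂ) : Prop :=
  (Summable fun y => ‖u y‖ ^ 2) ∧ ∀ y, ∑' w, H y w * u w - z * u y = if y = x then 1 else 0

/-- The matrix `H` is Hermitian with square summable rows, it is essentially self-adjoint, the
spectral measures of all sites have the property `Φ`, and there are no square summable
eigenfunctions. -/
def Spectral {d : ℕ} (H : (Fin d → ℤ) → (Fin d → ℤ) → ℂ) (Φ : Measure ℝ → Prop) : Prop :=
  (∀ x y, H x y = conj (H y x)) ∧
  (∀ x, Summable fun y => ‖H x y‖ ^ 2) ∧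
  (∀ z : ℂ, z.im ≠ 0 → ∀ x, ∃! u : (Fin d → ℤ) → ℂ, IsGreen H z x u) ∧
  (∀ x, ∃ μ : Measure ℝ, IsProbabilityMeasure μ ∧ Φ μ ∧
    ∀ z : ℂ, z.im ≠ 0 → ∀ u : (Fin d → ℤ) → ℂ, IsGreen H z x u →
      u x = ∫ E : ℝ, 1 / ((E : ℂ) - z) ∂μ) ∧
  (∀ (E : ℝ) (ψ : (Fin d → ℤ) → ℂ), (Summable fun x => ‖ψ x‖ ^ 2) →
    (∀ x, ∑' y, H x y * ψ y = E * ψ x) → ψ = 0)

theorem isU_of {d : ℕ} {H : (Fin d → ℤ) → (Fin d → ℤ) → ℂ} (hH : T2H19.Adm H) {z : ℂ}
    {x : Fin d → ℤ} {u : (Fin d → ℤ) → ℂ} (hu : IsGreen H z x u) :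
    T2H19.IsU H hH z x ⟨u, T2H19.mem2 hu.1⟩ := by
  intro y
  have h1 := hu.2 y
  rw [← h1]
  congr 1
  rw [lp.inner_eq_tsum]
  refine tsum_congr fun w => ?_
  show inner ℂ (H w y) (u w) = H y w * u w
  rw [hH.herm y w, RCLike.inner_apply]
  exact mul_comm _ _

theorem of_isU {d : ℕ} {H : (Fin d → ℤ) → (Fin d → ℤ) → ℂ} (hH : T2H19.Adm H) {z : ℂ}
    {x : Fin d → ℤ} {U : T2H19.E2 (Fin d → ℤ)} (hU : T2H19.IsU H hH z x U) :
    IsGreen H z x (fun y => U y) := by
  refine ⟨T2H19.sm2 U, fun y => ?_⟩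
  have h1 := hU y
  rw [← h1]
  congr 1
  rw [lp.inner_eq_tsum]
  refine tsum_congr fun w => ?_
  show H y w * U w = inner ℂ (H w y) (U w)
  rw [hH.herm y w, RCLike.inner_apply]
  exact mul_comm _ _

theorem spectral_of {d : ℕ} {H : (Fin d → ℤ) → (Fin d → ℤ) → ℂ} {Φ : Measure ℝ → Prop}
    (hΦ : ∀ μ, Φ μ → ∀ E, μ {E} = 0)
    (h : ∃ hH : T2H19.Adm H, (∀ z : ℂ, z.im ≠ 0 → ∀ x, T2H19.Ap H hH z x) ∧
      ∀ x, ∃ μ : Measure ℝ, IsProbabilityMeasure μ ∧ Φ μ ∧
        ∀ z : ℂ, z.im ≠ 0 → ∀ U : T2H19.E2 (T2H19.Zd d), T2H19.IsU _ hH z x U →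
          U x = ∫ E : ℝ, 1 / ((E : ℂ) - z) ∂μ) : Spectral H Φ := by
  obtain ⟨hH, hA, hac⟩ := h
  have hrow : ∀ x, Summable fun y => ‖H x y‖ ^ 2 := by
    intro x
    refine (hH.sm x).congr fun y => ?_
    rw [hH.herm x y, RCLike.norm_conj]
  refine ⟨hH.herm, hrow, fun z hz x => ?_, fun x => ?_, fun E ψ hψ hE => ?_⟩
  · obtain ⟨U, hU, -⟩ := T2H19.exists_U _ hH hz x (hA z hz x)
    refine ⟨fun y => U y, of_isU hH hU, fun v hv => ?_⟩
    have hz' : (conj z).im ≠ 0 := by simpa using hz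
    have h1 := T2H19.unique_U _ hH z x (hA (conj z) hz') _ _ (isU_of hH hv) hU
    funext y
    rw [← h1]
  · obtain ⟨μ, hμ, h1, h2⟩ := hac x
    exact ⟨μ, hμ, h1, fun z hz u hu => h2 z hz _ (isU_of hH hu)⟩
  · funext x
    obtain ⟨μ, hμ, h1, h2⟩ := hac x
    have h3 := T2H19.no_eig' hH hA x μ E (hΦ μ h1 E) h2 ⟨ψ, T2H19.mem2 hψ⟩ (by
      intro y
      have h4 := hE y
      show _ = (E : ℂ) * ψ y
      rw [← h4, lp.inner_eq_tsum]
      refine tsum_congr fun w => ?_
      show inner ℂ (H w y) (ψ w) = H y w * ψ w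
      rw [hH.herm y w, RCLike.inner_apply]
      exact mul_comm _ _)
    exact h3

/-- An injection of the index set of the helper files. -/
def emb {d : ℕ} : T2H19.Ix (T2H19.Zd d) → Pairs d
  | Sum.inl x => (x + x, x + x, true)
  | Sum.inr (x, y, b) => if x = y ∧ b = true then (x + x + 1, x + x + 1, true) else (x, y, b)

theorem emb_inj {d : ℕ} (hd : 0 < d) : Function.Injective (emb (d := d)) := by
  have hodd : ∀ x y : Fin d → ℤ, x + x ≠ y + y + 1 := by
    intro x y h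
    have := congrFun h ⟨0, hd⟩
    simp only [Pi.add_apply, Pi.one_apply] at this
    omega
  have h2 : ∀ x y : Fin d → ℤ, x + x = y + y → x = y := by
    intro x y h
    funext i
    have := congrFun h i
    simp only [Pi.add_apply] at this
    omega
  rintro (x | ⟨x, y, b⟩) (x' | ⟨x', y', b'⟩) h
  · simp only [emb, Prod.mk.injEq] at h
    rw [h2 x x' h.1]
  · simp only [emb] at h
    split_ifs at h with h3
    · simp only [Prod.mk.injEq] at h
      exact absurd h.1 (hodd _ _)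
    · simp only [Prod.mk.injEq] at h
      exact absurd ⟨h.1.symm.trans h.2.1, h.2.2.symm⟩ h3
  · simp only [emb] at h
    split_ifs at h with h3
    · simp only [Prod.mk.injEq] at h
      exact absurd h.1.symm (hodd _ _)
    · simp only [Prod.mk.injEq] at h
      exact absurd ⟨h.1.trans h.2.1.symm, h.2.2⟩ h3
  · simp only [emb] at h
    split_ifs at h with h3 h4 h4
    · simp only [Prod.mk.injEq] at h
      have h5 := h2 x x' (add_right_cancel h.1)
      rw [← h3.1, ← h4.1, h3.2, h4.2, h5]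
    · simp only [Prod.mk.injEq] at h
      exact absurd ⟨h.1.symm.trans h.2.1, h.2.2.symm⟩ h4
    · simp only [Prod.mk.injEq] at h
      exact absurd ⟨h.1.trans h.2.1.symm, h.2.2⟩ h3
    · rw [h]

theorem ham_eq {d : ℕ} (S : (Fin d → ℤ) → ℝ) (v : (Fin d → ℤ) → ℝ) (g : Pairs d → ℝ) :
    ham S v g = T2H19.HG S (v, fun k => g (emb k)) := by
  funext x y
  unfold ham T2H19.HG
  have h1 : lap x y = ((T2H19.kk (x - y) : ℝ) : ℂ) := by
    unfold lap T2H19.kk
    have h2 : ((∑ i, ((x - y) i).natAbs : ℕ) : ℤ) = ∑ i, |x i - y i| := by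
      push_cast
      exact Finset.sum_congr rfl fun i _ => by simp
    by_cases h : ∑ i, |x i - y i| = 1
    · rw [if_pos h, if_pos (by rw [← h2] at h; exact_mod_cast h)]
      simp
    · rw [if_neg h, if_neg (by
        intro h3
        apply h
        rw [← h2, h3]
        rfl)]
      simp
  have h2 : T2H19.Wg (fun k => g (emb k)) x y = gau g x y := by
    unfold T2H19.Wg gau
    simp only [emb]
    by_cases h : x = y
    · subst h
      simp
    · have h' : ¬ y = x := fun h3 => h h3.symm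
      simp [h, h']
  rw [h1, h2]

theorem transfer {d : ℕ} (hd : 0 < d) (ν : Measure ℝ) [IsProbabilityMeasure ν]

    {R : ((Fin d → ℤ) → (Fin d → ℤ) → ℂ) → Prop} (S : (Fin d → ℤ) → ℝ)
    (h : ∀ᵐ p ∂(T2H19.Pr d ν), R (T2H19.HG S p)) :
    ∀ᵐ p ∂((Measure.infinitePi fun _ : Fin d → ℤ => ν).prod
      (Measure.infinitePi fun _ : Pairs d => gaussianReal 0 1)), R (ham S p.1 p.2) := by
  have hmp : MeasurePreserving (fun p : ((Fin d → ℤ) → ℝ) × (Pairs d → ℝ) =>
      ((p.1, fun k => p.2 (emb k)) : T2H19.Om d))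
      ((Measure.infinitePi fun _ : Fin d → ℤ => ν).prod
        (Measure.infinitePi fun _ : Pairs d => gaussianReal 0 1)) (T2H19.Pr d ν) :=
    (MeasurePreserving.id _).prod (T2H19.inj_mp (emb_inj hd))
  filter_upwards [hmp.quasiMeasurePreserving.ae h] with p hp
  rw [ham_eq]
  exact hp

/-- Let `H = Δ + v + W` on `ℤ^d`, where `v` is an i.i.d. potential with an arbitrary law `ν` and
`W` is an independent Hermitian matrix of centred Gaussian variables with variances `S (x - y)`.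

If `|Λ| (min_{x ≠ y in Λ} S (x - y)) ^ (1 / 2)` is unbounded over the finite sets `Λ` of at least
two points, then almost surely `H` is essentially self-adjoint, its spectral measures have no
atoms, and it has no square summable eigenfunctions.

If `S h ≥ c |h| ^ (-2 β)` for all `h ≠ 0`, with `β < d`, then almost surely, in addition, the
spectral measures give no mass to sets of Hausdorff dimension less than `d / β - 1`. -/
theorem result (d : ℕ) (hd : 0 < d) (ν : Measure ℝ) [IsProbabilityMeasure ν]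
    (S : (Fin d → ℤ) → ℝ) (h0 : ∀ h, 0 ≤ S h) (hs : ∀ h, S (-h) = S h) (hS : Summable S) :
    ((∀ A : ℝ, ∃ Λ : Finset (Fin d → ℤ), 2 ≤ Λ.card ∧ ∃ κ : ℝ, 0 < κ ∧
        (∀ x ∈ Λ, ∀ y ∈ Λ, x ≠ y → κ ≤ S (x - y)) ∧ A ≤ Λ.card * √κ) →
      ∀ᵐ p ∂((Measure.infinitePi fun _ : Fin d → ℤ => ν).prod
        (Measure.infinitePi fun _ : Pairs d => gaussianReal 0 1)),
        Spectral (ham S p.1 p.2) fun μ => ∀ E : ℝ, μ {E} = 0) ∧
    (∀ β c : ℝ, 0 < β → β < d → 0 < c → (∀ h : Fin d → ℤ, h ≠ 0 → c * ‖h‖ ^ (-(2 * β)) ≤ S h) →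
      ∀ᵐ p ∂((Measure.infinitePi fun _ : Fin d → ℤ => ν).prod
        (Measure.infinitePi fun _ : Pairs d => gaussianReal 0 1)),
        Spectral (ham S p.1 p.2) fun μ =>
          ∀ A : Set ℝ, dimH A < ENNReal.ofReal (d / β - 1) → μ A = 0) := by
  have hP : T2H19.Prf S := ⟨h0, hs, hS⟩
  have hFm : ∀ η : ℝ, 0 < η → Measurable fun q : T2H19.Om d × ℝ =>
      (T2H19.mG hP ν).F2 η q.1 q.2 := fun η hη => (T2H19.mG hP ν).F2_meas hη
  have hFb := fun (Λ : Finset (T2H19.Zd d)) (hΛ0 : Λ.Nonempty) (κ : ℝ) (hκ : 0 < κ)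
    (hΛ : ∀ x ∈ Λ, ∀ y ∈ Λ, x ≠ y → κ ≤ S (x - y)) (η : ℝ) (hη : 0 < η) (h4 : 4 * κ ≤ η ^ 2)
    (E : ℝ) => T2H19.F2_blk hP ν Λ hΛ0 hκ hΛ hη h4 E
  refine ⟨fun hbig => ?_, fun β c hβ hβd hc hpow => ?_⟩
  · obtain ⟨η, hη, h1⟩ := T2H19.no_atom hP _ hFm hFb hbig
    have h2 := (T2H19.mG hP ν).main η hη (fun μ => ∀ E : ℝ, μ {E} = 0) h1
    exact transfer hd ν S (R := fun H => Spectral H fun μ => ∀ E : ℝ, μ {E} = 0)
      (by
        filter_upwards [h2] with p hp
        exact spectral_of (fun μ h => h) hp)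
  · have h1 := T2H19.dim_low hP _ hFm hFb hd hβ hβd hc hpow
    have h2 := (T2H19.mG hP ν).main (fun j => (1 / 2 : ℝ) ^ j) (fun j => by positivity)
      (fun μ => ∀ A : Set ℝ, dimH A < ENNReal.ofReal (d / β - 1) → μ A = 0) h1
    exact transfer hd ν S (R := fun H => Spectral H fun μ =>
        ∀ A : Set ℝ, dimH A < ENNReal.ofReal (d / β - 1) → μ A = 0)
      (by
        filter_upwards [h2] with p hp
        refine spectral_of (fun μ h E => h {E} ?_) hp
        rw [dimH_singleton, ENNReal.ofReal_pos, sub_pos, lt_div_iff₀ hβ, one_mul]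
        exact hβd)

end Pool.Agent.Results.MP_1906c1_mp.LongRangeContinuousSpectrum
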