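import Pool.Agent.T2H19.W11
import Pool.Agent.T2H19.W12
import Pool.Agent.T2H19.W13

/-! The Anderson model with an additional deterministic translation invariant hopping with
coefficients `s (x - y) * |x - y| ^ (-β)`, `d / 2 < β ≤ d`, of arbitrarily small norm: for almost
every choice of the signs `s` the spectrum is purely continuous, at all energies. -/

set_option autoImplicit false

namespace Pool.Agent.Results.MP_1906c1_mp.ToeplitzHopping

open MeasureTheory ProbabilityTheory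
open scoped ComplexConjugate ENNReal

universe u

/-- Square summable solutions of `(H - z) u = δ_x`. -/
def IsGreen {d : ℕ} (H : (Fin d → ℤ) → (Fin d → ℤ) → ℂ) (z : ℂ) (x : Fin d → ℤ)
    (u : (Fin d → ℤ) → ℂ) : Prop :=
  (Summable fun y => ‖u y‖ ^ 2) ∧ ∀ y, ∑' w, H y w * u w - z * u y = if y = x then 1 else 0

/-- The matrix `H` is Hermitian with square summable rows, it is essentially self-adjoint, the
spectral measures of all sites have no atoms, and there are no square summable eigenfunctions. -/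
def Spectral {d : ℕ} (H : (Fin d → ℤ) → (Fin d → ℤ) → ℂ) : Prop :=
  (∀ x y, H x y = conj (H y x)) ∧
  (∀ x, Summable fun y => ‖H x y‖ ^ 2) ∧
  (∀ z : ℂ, z.im ≠ 0 → ∀ x, ∃! u : (Fin d → ℤ) → ℂ, IsGreen H z x u) ∧
  (∀ x, ∃ μ : Measure ℝ, IsProbabilityMeasure μ ∧ (∀ E : ℝ, μ {E} = 0) ∧
    ∀ z : ℂ, z.im ≠ 0 → ∀ u : (Fin d → ℤ) → ℂ, IsGreen H z x u →
      u x = ∫ E : ℝ, 1 / ((E : ℂ) - z) ∂μ) ∧
  (∀ (E : ℝ) (ψ : (Fin d → ℤ) → ℂ), (Summable fun x => ‖ψ x‖ ^ 2) →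
    (∀ x, ∑' y, H x y * ψ y = E * ψ x) → ψ = 0)

theorem isU_of {d : ℕ} {H : (Fin d → ℤ) → (Fin d → ℤ) → ℂ} (hH : T2H19.Adm H) {z : ℂ}
    {x : Fin d → ℤ} {u : (Fin d → ℤ) → ℂ} (hu : IsGreen H z x u) :
    T2H19.IsU H hH z x ⟨u, T2H19.mem2 hu.1⟩ := by
  intro y
  have h1 := hu.2 y
  rw [← h1]
  congr 1
  rw [lp.inner_eq_tsum]
  refine tsum_congr fun w => ?_
  show inner ℂ (H w y) (u w) = H y w * u w
  rw [hH.herm y w, RCLike.inner_apply]
  exact mul_comm _ _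

theorem of_isU {d : ℕ} {H : (Fin d → ℤ) → (Fin d → ℤ) → ℂ} (hH : T2H19.Adm H) {z : ℂ}
    {x : Fin d → ℤ} {U : T2H19.E2 (Fin d → ℤ)} (hU : T2H19.IsU H hH z x U) :
    IsGreen H z x (fun y => U y) := by
  refine ⟨T2H19.sm2 U, fun y => ?_⟩
  have h1 := hU y
  rw [← h1]
  congr 1
  rw [lp.inner_eq_tsum]
  refine tsum_congr fun w => ?_
  show H y w * U w = inner ℂ (H w y) (U w)
  rw [hH.herm y w, RCLike.inner_apply]
  exact mul_comm _ _

theorem spectral_of {d : ℕ} {H : (Fin d → ℤ) → (Fin d → ℤ) → ℂ}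
    (h : ∃ hH : T2H19.Adm H, (∀ z : ℂ, z.im ≠ 0 → ∀ x, T2H19.Ap H hH z x) ∧
      ∀ x, ∃ μ : Measure ℝ, IsProbabilityMeasure μ ∧ (∀ E : ℝ, μ {E} = 0) ∧
        ∀ z : ℂ, z.im ≠ 0 → ∀ U : T2H19.E2 (T2H19.Zd d), T2H19.IsU _ hH z x U →
          U x = ∫ E : ℝ, 1 / ((E : ℂ) - z) ∂μ) : Spectral H := by
  obtain ⟨hH, hA, hac⟩ := h
  have hrow : ∀ x, Summable fun y => ‖H x y‖ ^ 2 := by
    intro x
    refine (hH.sm x).congr fun y => ?_
    rw [hH.herm x y, RCLike.norm_conj]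
  refine ⟨hH.herm, hrow, fun z hz x => ?_, fun x => ?_, fun E ψ hψ hE => ?_⟩
  · obtain ⟨U, hU, -⟩ := T2H19.exists_U _ hH hz x (hA z hz x)
    refine ⟨fun y => U y, of_isU hH hU, fun v hv => ?_⟩
    have hz' : (conj z).im ≠ 0 := by simpa using hz
    have h1 := T2H19.unique_U _ hH z x (hA (conj z) hz') _ _ (isU_of hH hv) hU
    funext y
    rw [← h1]
  · obtain ⟨μ, hμ, h1, h2⟩ := hac x
    exact ⟨μ, hμ, h1, fun z hz u hu => h2 z hz _ (isU_of hH hu)⟩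
  · funext x
    obtain ⟨μ, hμ, h1, h2⟩ := hac x
    have h3 := T2H19.no_eig' hH hA x μ E (h1 E) h2 ⟨ψ, T2H19.mem2 hψ⟩ (by
      intro y
      have h4 := hE y
      show _ = (E : ℂ) * ψ y
      rw [← h4, lp.inner_eq_tsum]
      refine tsum_congr fun w => ?_
      show inner ℂ (H w y) (ψ w) = H y w * ψ w
      rw [hH.herm y w, RCLike.inner_apply]
      exact mul_comm _ _)
    exact h3

/-- `κ` has a bounded continuous density. -/
def BddDensity (κ : Measure ℝ) : Prop :=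
  ∃ (ρ : ℝ → ℝ) (C : ℝ), Continuous ρ ∧ (∀ r, 0 ≤ ρ r ∧ ρ r ≤ C) ∧
    κ = volume.withDensity fun r => ENNReal.ofReal (ρ r)

/-- For every i.i.d. potential `ξ` with law `κ`, almost surely the operator with the hopping
`T (x - y)` and the potential `σ * ξ x` has purely continuous spectrum. -/
def AllContinuous (d : ℕ) (κ : Measure ℝ) (T : (Fin d → ℤ) → ℝ) (σ : ℝ) : Prop :=
  ∀ (Ω : Type u) [MeasurableSpace Ω] (P : Measure Ω) [IsProbabilityMeasure P]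
    (ξ : (Fin d → ℤ) → Ω → ℝ), (∀ x, Measurable (ξ x)) → iIndepFun ξ P → (∀ x, P.map (ξ x) = κ) →
    ∀ᵐ ω ∂P, Spectral fun x y => ((T (x - y) + (if x = y then σ * ξ x ω else 0) : ℝ) : ℂ)

/-- Almost every choice of the signs. -/
theorem signs {d : ℕ} {κ : Measure ℝ} [IsProbabilityMeasure κ] (hκ : BddDensity κ)
    {t a : (Fin d → ℤ) → ℝ} (ts : ∀ h, t (-h) = t h) (as : ∀ h, a (-h) = a h)
    (tm : Summable fun h => t h ^ 2) (am : Summable fun h => a h ^ 2)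
    (hdiv : ¬ Summable fun h => |a h|) (S : Measure ℝ) [SFinite S] (hS : S {0} = 0) :
    ∀ᵐ r ∂(T2H19.PR d), ∀ᵐ σ ∂S,
      AllContinuous.{u} d κ (fun h => t h + T2H19.sg r h * a h) σ := by
  obtain ⟨ρ, C, hc, hb, he⟩ := hκ
  have hD : T2H19.Dens κ ρ C := ⟨hc, fun r => (hb r).1, fun r => (hb r).2, he⟩
  filter_upwards [T2H19.main_W hD ts as tm am hdiv S hS] with r hr
  filter_upwards [hr] with σ hσ Ω _ P _ ξ hξ hI hlaw
  refine (T2H19.trans_pot P ξ hξ hI hlaw σ hσ).mono fun ω hω => ?_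
  exact spectral_of hω

/-- The nearest neighbor hopping is square summable. -/
theorem nn_summable (d : ℕ) :
    Summable fun h : Fin d → ℤ => (if ∑ i, |h i| = 1 then (1 : ℝ) else 0) ^ 2 := by
  refine (T2H19.summable_int d (d + 1) (by linarith)).of_nonneg_of_le (fun h => sq_nonneg _)
    (fun h => ?_)
  by_cases hh : ∑ i, |h i| = 1
  · rw [if_pos hh, one_pow]
    have h3 : ‖h‖ ≤ 1 := by
      rw [pi_norm_le_iff_of_nonneg zero_le_one]
      intro i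
      rw [Int.norm_eq_abs]
      have h4 := Finset.single_le_sum (f := fun i => |h i|) (fun i _ => abs_nonneg _)
        (Finset.mem_univ i)
      rw [hh] at h4
      exact_mod_cast h4
    have h5 : 0 < ‖h‖ := by
      rw [norm_pos_iff]
      intro h6
      rw [h6] at hh
      simp at hh
    exact Real.one_le_rpow_of_pos_of_le_one_of_nonpos h5 h3 (by linarith)
  · rw [if_neg hh, zero_pow (by norm_num)]
    exact Real.rpow_nonneg (norm_nonneg _) _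

theorem gauss_bdd : BddDensity (gaussianReal 0 1) := by
  obtain ⟨ρ, C, hc, hb, he⟩ := T2H19.gauss_dens one_ne_zero
  refine ⟨ρ, C, hc, hb, ?_⟩
  rw [← he]
  simp only [one_mul]
  exact Measure.map_id'.symm

/-- The profile of the hopping. -/
theorem prof_sq {d : ℕ} {β : ℝ} (hβ : (d : ℝ) / 2 < β) (c : ℝ) :
    Summable fun h : Fin d → ℤ => (c * ‖h‖ ^ (-β)) ^ 2 := by
  refine ((T2H19.summable_int d (2 * β) (by linarith)).mul_left (c ^ 2)).congr fun h => ?_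
  rw [mul_pow, ← Real.rpow_natCast (_ ^ (-β)) 2, ← Real.rpow_mul (norm_nonneg _)]
  congr 2
  push_cast
  ring

theorem prof_div {d : ℕ} {β : ℝ} (hβ : (d : ℝ) / 2 < β) (hβd : β ≤ d) {c : ℝ} (hc : 0 < c) :
    ¬ Summable fun h : Fin d → ℤ => |c * ‖h‖ ^ (-β)| := by
  have hβ0 : 0 < β := lt_of_le_of_lt (by positivity) hβ
  have hd : 0 < d := by
    rcases Nat.eq_zero_or_pos d with h | h
    · rw [h] at hβd
      simp at hβd
      linarith
    · exact h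
  intro h5
  refine T2H19.not_summable_pow hd hβ0 hβd ((summable_mul_left_iff hc.ne').1
    (h5.congr fun h => abs_of_nonneg ?_))
  exact mul_nonneg hc.le (Real.rpow_nonneg (norm_nonneg _) _)

/-- Power law hopping with random signs. -/
theorem power_ae {d : ℕ} (S : Measure ℝ) [SFinite S] (hS : S {0} = 0) {β : ℝ}
    (hβ : (d : ℝ) / 2 < β) (hβd : β ≤ d) (c : ℝ) (hc : 0 < c) :
    ∀ᵐ r ∂(T2H19.PR d), ∀ᵐ σ ∂S, AllContinuous.{u} d (gaussianReal 0 1)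
      (fun h => (if ∑ i, |h i| = 1 then 1 else 0) + c * (T2H19.sg r h * ‖h‖ ^ (-β))) σ := by
  have h1 := signs.{u} gauss_bdd (t := fun h : Fin d → ℤ => if ∑ i, |h i| = 1 then 1 else 0)
    (a := fun h => c * ‖h‖ ^ (-β)) (fun h => by simp only [Pi.neg_apply, abs_neg])
    (fun h => by rw [norm_neg]) (nn_summable d) (prof_sq hβ c) (prof_div hβ hβd hc) S hS
  refine h1.mono fun r hr => hr.mono fun σ hσ => ?_
  have e : (fun h : Fin d → ℤ => (if ∑ i, |h i| = 1 then (1 : ℝ) else 0)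
      + c * (T2H19.sg r h * ‖h‖ ^ (-β)))
      = fun h => (if ∑ i, |h i| = 1 then 1 else 0) + T2H19.sg r h * (c * ‖h‖ ^ (-β)) := by
    funext h
    ring
  rw [e]
  exact hσ

/-- Power law hopping. -/
theorem power {d : ℕ} (S : Measure ℝ) [SFinite S] (hS : S {0} = 0) {β ε : ℝ}
    (hβ : (d : ℝ) / 2 < β) (hβd : β ≤ d) (hε : 0 < ε) :
    ∃ (s : (Fin d → ℤ) → ℝ) (ε' : ℝ) (b : C(UnitAddTorus (Fin d), ℝ)),
      (∀ h, s h = 1 ∨ s h = -1) ∧ (∀ h, s (-h) = s h) ∧ 0 < ε' ∧ ε' ≤ ε ∧ (∀ k, |b k| ≤ ε) ∧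
      (∀ h, UnitAddTorus.mFourierCoeff (fun k => ((b k : ℝ) : ℂ)) h
        = ((ε' * (s h * ‖h‖ ^ (-β)) : ℝ) : ℂ)) ∧
      (∀ ψ : (Fin d → ℤ) →₀ ℂ,
        (Summable fun x => ‖∑ y ∈ ψ.support,
          ((ε' * (s (x - y) * ‖x - y‖ ^ (-β)) : ℝ) : ℂ) * ψ y‖ ^ 2) ∧
        ∑' x, ‖∑ y ∈ ψ.support, ((ε' * (s (x - y) * ‖x - y‖ ^ (-β)) : ℝ) : ℂ) * ψ y‖ ^ 2
          ≤ ε ^ 2 * ∑ y ∈ ψ.support, ‖ψ y‖ ^ 2) ∧
      ∀ᵐ σ ∂S, AllContinuous.{u} d (gaussianReal 0 1)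
        (fun h => (if ∑ i, |h i| = 1 then 1 else 0) + ε' * (s h * ‖h‖ ^ (-β))) σ := by
  have hn1 : ∀ n : ℕ, (0 : ℝ) < 1 / ((n : ℝ) + 1) := fun n => by positivity
  have h1 : ∀ᵐ r ∂(T2H19.PR d), ∀ n : ℕ, ∀ᵐ σ ∂S, AllContinuous.{u} d (gaussianReal 0 1)
      (fun h => (if ∑ i, |h i| = 1 then 1 else 0)
        + 1 / ((n : ℝ) + 1) * (T2H19.sg r h * ‖h‖ ^ (-β))) σ := by
    rw [ae_all_iff]
    intro n
    exact power_ae S hS hβ hβd _ (hn1 n)
  obtain ⟨r, hr1, b, hb⟩ := (h1.and (T2H19.RF.fourier d β hβ)).exists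
  obtain ⟨n, b', hn, hb1, hb2⟩ := T2H19.small_symbol (c := fun h => T2H19.sg r h * ‖h‖ ^ (-β))
    hb hε
  refine ⟨T2H19.sg r, 1 / ((n : ℝ) + 1), b', fun h => ?_, T2H19.sg_neg r, hn1 n, hn, hb1, hb2,
    fun ψ => ?_, hr1 n⟩
  · unfold T2H19.sg
    split_ifs
    · exact Or.inl rfl
    · exact Or.inr rfl
  · exact T2H19.op_bound (c := fun h => 1 / ((n : ℝ) + 1) * (T2H19.sg r h * ‖h‖ ^ (-β))) b' hb1
      hb2 ψ

/-- (i) Let `κ` be a probability measure with a bounded continuous density, let `t` and `a` be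
even and square summable on `ℤ^d`, and let `a` be not absolutely summable. Let `S` be an s-finite
measure on `ℝ` with `S {0} = 0`. Then for almost every choice of even signs `s`, for `S`-almost
every `σ`: for every i.i.d. potential `ξ` with law `κ`, almost surely the operator with entries
`t (x - y) + s (x - y) * a (x - y)` and potential `σ * ξ x` has purely continuous spectrum.

(ii) Let `d / 2 < β ≤ d` and `ε > 0`. There are even signs `s` and `0 < ε' ≤ ε` such that the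
convolution by `ε' * s h * |h| ^ (-β)` has a continuous symbol, and norm at most `ε`, and such
that for `S`-almost every `σ`, for every i.i.d. standard Gaussian potential `ξ`, almost surely the
operator `Δ + σ ξ` plus this convolution has purely continuous spectrum. -/
theorem result (d : ℕ) (S : Measure ℝ) [SFinite S] (hS : S {0} = 0) :
    (∀ (κ : Measure ℝ) [IsProbabilityMeasure κ], BddDensity κ →
      ∀ t a : (Fin d → ℤ) → ℝ, (∀ h, t (-h) = t h) → (∀ h, a (-h) = a h) →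
      (Summable fun h => t h ^ 2) → (Summable fun h => a h ^ 2) → (¬ Summable fun h => |a h|) →
      ∀ᵐ r ∂(T2H19.PR d), ∀ᵐ σ ∂S,
        AllContinuous.{u} d κ (fun h => t h + T2H19.sg r h * a h) σ) ∧
    (∀ β ε : ℝ, (d : ℝ) / 2 < β → β ≤ d → 0 < ε →
      ∃ (s : (Fin d → ℤ) → ℝ) (ε' : ℝ) (b : C(UnitAddTorus (Fin d), ℝ)),
        (∀ h, s h = 1 ∨ s h = -1) ∧ (∀ h, s (-h) = s h) ∧ 0 < ε' ∧ ε' ≤ ε ∧ (∀ k, |b k| ≤ ε) ∧
        (∀ h, UnitAddTorus.mFourierCoeff (fun k => ((b k : ℝ) : ℂ)) h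
          = ((ε' * (s h * ‖h‖ ^ (-β)) : ℝ) : ℂ)) ∧
        (∀ ψ : (Fin d → ℤ) →₀ ℂ,
          (Summable fun x => ‖∑ y ∈ ψ.support,
            ((ε' * (s (x - y) * ‖x - y‖ ^ (-β)) : ℝ) : ℂ) * ψ y‖ ^ 2) ∧
          ∑' x, ‖∑ y ∈ ψ.support, ((ε' * (s (x - y) * ‖x - y‖ ^ (-β)) : ℝ) : ℂ) * ψ y‖ ^ 2
            ≤ ε ^ 2 * ∑ y ∈ ψ.support, ‖ψ y‖ ^ 2) ∧
        ∀ᵐ σ ∂S, AllContinuous.{u} d (gaussianReal 0 1)
          (fun h => (if ∑ i, |h i| = 1 then 1 else 0) + ε' * (s h * ‖h‖ ^ (-β))) σ) :=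
  ⟨fun κ _ hκ t a ts as tm am hdiv => signs hκ ts as tm am hdiv S hS,
    fun β ε hβ hβd hε => power S hS hβ hβd hε⟩

end Pool.Agent.Results.MP_1906c1_mp.ToeplitzHopping
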